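import Pool.Agent.W203.WS.Stm2

set_option autoImplicit false

open MeasureTheory Finset

namespace Pool.Agent.W827.WT.NEAR

open Pool.Agent.W203.WS

theorem norm_e (x : ℝ) : ‖e x‖ = 1 := by
  unfold e
  rw [Complex.norm_exp]
  simp

/-- geometric majorant -/
noncomputable def a (m : ℤ) : ℝ := Real.exp (-(Real.pi / 4) * |(m : ℝ)|)

theorem a_pos (m : ℤ) : 0 < a m := Real.exp_pos _

theorem a_summable : Summable a := by
  have hr : Real.exp (-(Real.pi / 4)) < 1 := by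
    rw [Real.exp_lt_one_iff]
    linarith [Real.pi_pos]
  have hs := summable_geometric_of_lt_one (Real.exp_pos (-(Real.pi / 4))).le hr
  have h1 : ∀ n : ℕ, a (n : ℤ) = Real.exp (-(Real.pi / 4)) ^ n := by
    intro n
    unfold a
    rw [← Real.exp_nat_mul]
    congr 1
    push_cast
    rw [abs_of_nonneg (Nat.cast_nonneg n)]
    ring
  have h2 : ∀ n : ℕ, a (-(n : ℤ)) = Real.exp (-(Real.pi / 4)) ^ n := by
    intro n
    rw [← h1 n]
    unfold a
    push_cast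
    rw [abs_neg]
  apply Summable.of_nat_of_neg
  · exact hs.congr (fun n => (h1 n).symm)
  · exact hs.congr (fun n => (h2 n).symm)

noncomputable def A1 : ℝ := ∑' m, a m

theorem A1_nonneg : 0 ≤ A1 := tsum_nonneg (fun m => (a_pos m).le)

theorem bd (σ z : ℝ) (m : ℤ) (hσ : 0 < σ) (hσ1 : σ ≤ 1) (hm : m ≠ 0)
    (hz : |(m : ℝ)| / 2 ≤ |z|) :
    Real.exp (-Real.pi * (z / σ) ^ 2) ≤
      Real.exp (-(Real.pi / (4 * σ ^ 2))) * (Real.exp (Real.pi / 4) * a m) := by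
  unfold a
  rw [← Real.exp_add, ← Real.exp_add]
  apply Real.exp_le_exp.mpr
  have hm1 : (1 : ℝ) ≤ |(m : ℝ)| := by
    have : (1 : ℤ) ≤ |m| := Int.one_le_abs hm
    exact_mod_cast this
  set M := |(m : ℝ)| with hM
  have hu : 1 ≤ 1 / σ ^ 2 := by
    rw [le_div_iff₀ (by positivity)]
    nlinarith
  set u := 1 / σ ^ 2 with hudef
  have hz2 : M ^ 2 / 4 ≤ z ^ 2 := by
    have h1 : (M / 2) ^ 2 ≤ |z| ^ 2 := by
      apply pow_le_pow_left₀ (by linarith) hz
    rw [sq_abs] at h1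
    linarith [h1, (by ring : (M / 2) ^ 2 = M ^ 2 / 4)]
  have e1 : (z / σ) ^ 2 = z ^ 2 * u := by
    rw [hudef]; field_simp
  have e2 : Real.pi / (4 * σ ^ 2) = Real.pi / 4 * u := by
    rw [hudef]; field_simp
  rw [e1, e2]
  have h3 : M ^ 2 / 4 * u ≤ z ^ 2 * u := mul_le_mul_of_nonneg_right hz2 (by linarith)
  have h4 : u / 4 + (M - 1) / 4 ≤ M ^ 2 / 4 * u := by
    nlinarith [mul_nonneg (by nlinarith : (0 : ℝ) ≤ M ^ 2 - 1) (by linarith : (0 : ℝ) ≤ u - 1)]
  have hpi := Real.pi_pos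
  nlinarith [mul_le_mul_of_nonneg_left (h4.trans h3) hpi.le]

/-- the main term of `rho` -/
noncomputable def rn (σ t y : ℝ) : ℂ :=
  e (t * (⌊y⌋ : ℤ)) * (Real.exp (-Real.pi * ((y - 1 / 2 - (⌊y⌋ : ℤ)) / σ) ^ 2) : ℝ)

theorem dist_lem (y : ℝ) (n : ℤ) (hn : n ≠ ⌊y⌋) :
    |((n - ⌊y⌋ : ℤ) : ℝ)| / 2 ≤ |y - 1 / 2 - n| := by
  have h1 := Int.floor_le y
  have h2 := Int.lt_floor_add_one y
  set f := ⌊y⌋ with hf
  have hm : (1 : ℝ) ≤ |((n - f : ℤ) : ℝ)| := by
    have : (1 : ℤ) ≤ |n - f| := Int.one_le_abs (sub_ne_zero.mpr hn)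
    exact_mod_cast this
  have h3 : |((n - f : ℤ) : ℝ)| ≤ |y - 1 / 2 - n| + 1 / 2 := by
    have h4 : ((n - f : ℤ) : ℝ) = -(y - 1 / 2 - n) + (y - 1 / 2 - f) := by
      push_cast; ring
    rw [h4]
    refine (abs_add_le _ _).trans ?_
    rw [abs_neg]
    have h5 : |y - 1 / 2 - f| ≤ 1 / 2 := abs_le.mpr ⟨by linarith, by linarith⟩
    linarith
  linarith

theorem rho_close (σ t y : ℝ) (hσ : 0 < σ) (hσ1 : σ ≤ 1) :
    ‖rho σ t y - rn σ t y‖ ≤
      Real.exp (-(Real.pi / (4 * σ ^ 2))) * (Real.exp (Real.pi / 4) * A1) := by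
  set E := Real.exp (-(Real.pi / (4 * σ ^ 2))) with hE
  have hE0 : 0 < E := Real.exp_pos _
  have hE1 : E ≤ 1 := by
    rw [hE, Real.exp_le_one_iff]
    have : 0 ≤ Real.pi / (4 * σ ^ 2) := by positivity
    linarith
  set f : ℤ → ℂ := fun n => e (t * n) *
    (Real.exp (-Real.pi * ((y - 1 / 2 - n) / σ) ^ 2) : ℝ) with hf
  have hnorm : ∀ n, ‖f n‖ = Real.exp (-Real.pi * ((y - 1 / 2 - n) / σ) ^ 2) := by
    intro n
    rw [hf]
    simp only
    rw [norm_mul, norm_e, one_mul, Complex.norm_real, Real.norm_eq_abs, abs_of_pos (Real.exp_pos _)]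
  have hb : ∀ n, n ≠ ⌊y⌋ → ‖f n‖ ≤ E * (Real.exp (Real.pi / 4) * a (n - ⌊y⌋)) := by
    intro n hn
    rw [hnorm]
    exact bd σ _ _ hσ hσ1 (sub_ne_zero.mpr hn) (dist_lem y n hn)
  have hsumA : HasSum (fun n : ℤ => a (n - ⌊y⌋)) A1 :=
    (Equiv.subRight ⌊y⌋).hasSum_iff.mpr a_summable.hasSum
  have hsum2 : HasSum (fun n : ℤ => E * (Real.exp (Real.pi / 4) * a (n - ⌊y⌋)))
      (E * (Real.exp (Real.pi / 4) * A1)) := (hsumA.mul_left _).mul_left _
  have hsf : Summable f := by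
    refine Summable.of_norm_bounded (g := fun n : ℤ => Real.exp (Real.pi / 4) * a (n - ⌊y⌋))
      (hsumA.summable.mul_left _) ?_
    intro n
    have h4 : 0 ≤ Real.exp (Real.pi / 4) * a (n - ⌊y⌋) := (mul_pos (Real.exp_pos _) (a_pos _)).le
    by_cases hn : n = ⌊y⌋
    · rw [hnorm, hn, sub_self]
      have h5 : a 0 = 1 := by simp [a]
      rw [h5, mul_one]
      apply Real.exp_le_exp.mpr
      have h6 : 0 ≤ Real.pi * ((y - 1 / 2 - (⌊y⌋ : ℤ)) / σ) ^ 2 :=
        mul_nonneg Real.pi_pos.le (sq_nonneg _)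
      linarith [Real.pi_pos, h6,
        (by ring : -Real.pi * ((y - 1 / 2 - (⌊y⌋ : ℤ)) / σ) ^ 2 =
          -(Real.pi * ((y - 1 / 2 - (⌊y⌋ : ℤ)) / σ) ^ 2))]
    · refine (hb n hn).trans ?_
      nlinarith
  have hrho : rho σ t y - rn σ t y = ∑' n, ite (n = ⌊y⌋) 0 (f n) := by
    have h5 : rho σ t y = ∑' n, f n := rfl
    have h6 : rn σ t y = f ⌊y⌋ := rfl
    rw [h5, h6, hsf.tsum_eq_add_tsum_ite ⌊y⌋]
    ring
  rw [hrho]
  refine tsum_of_norm_bounded hsum2 ?_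
  intro n
  by_cases hn : n = ⌊y⌋
  · rw [if_pos hn, norm_zero]
    exact (mul_pos hE0 (mul_pos (Real.exp_pos _) (a_pos _))).le
  · rw [if_neg hn]
    exact hb n hn

theorem rn_norm (σ t y : ℝ) : ‖rn σ t y‖ ≤ 1 := by
  unfold rn
  rw [norm_mul, norm_e, one_mul, Complex.norm_real, Real.norm_eq_abs, abs_of_pos (Real.exp_pos _),
    Real.exp_le_one_iff]
  have h6 : 0 ≤ Real.pi * ((y - 1 / 2 - (⌊y⌋ : ℤ)) / σ) ^ 2 :=
    mul_nonneg Real.pi_pos.le (sq_nonneg _)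
  linarith

theorem prod_diff {ι : Type*} [DecidableEq ι] (F : Finset ι) (x y : ι → ℂ) (A E : ℝ) (hA : 0 ≤ A)
    (hE : 0 ≤ E) (hx : ∀ i, ‖x i‖ ≤ A) (hy : ∀ i, ‖y i‖ ≤ A) (hxy : ∀ i, ‖x i - y i‖ ≤ A * E) :
    ‖∏ i ∈ F, x i - ∏ i ∈ F, y i‖ ≤ F.card * A ^ F.card * E := by
  have hprod : ∀ F : Finset ι, ‖∏ i ∈ F, y i‖ ≤ A ^ F.card := by
    intro F
    rw [norm_prod]
    calc ∏ i ∈ F, ‖y i‖ ≤ ∏ _i ∈ F, A :=
          Finset.prod_le_prod (fun i _ => norm_nonneg _) (fun i _ => hy i)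
      _ = A ^ F.card := by rw [Finset.prod_const]
  induction F using Finset.induction_on with
  | empty => simp
  | insert i F hi ih =>
    rw [Finset.prod_insert hi, Finset.prod_insert hi, Finset.card_insert_of_notMem hi]
    have e1 : x i * ∏ i ∈ F, x i - y i * ∏ i ∈ F, y i =
        x i * (∏ i ∈ F, x i - ∏ i ∈ F, y i) + (x i - y i) * ∏ i ∈ F, y i := by ring
    rw [e1]
    refine (norm_add_le _ _).trans ?_
    rw [norm_mul, norm_mul]
    have h1 : ‖x i‖ * ‖∏ i ∈ F, x i - ∏ i ∈ F, y i‖ ≤ A * (F.card * A ^ F.card * E) :=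
      mul_le_mul (hx i) ih (norm_nonneg _) hA
    have h2 : ‖x i - y i‖ * ‖∏ i ∈ F, y i‖ ≤ (A * E) * A ^ F.card :=
      mul_le_mul (hxy i) (hprod F) (norm_nonneg _) (mul_nonneg hA hE)
    refine (add_le_add h1 h2).trans (le_of_eq ?_)
    push_cast
    ring

theorem int_e (M : ℤ) (hM : M ≠ 0) : ∫ t in (-(1 / 2) : ℝ)..(1 / 2), e (t * M) = 0 := by
  have hc : (2 * (Real.pi : ℂ) * Complex.I * (M : ℂ)) ≠ 0 := by
    have : (M : ℂ) ≠ 0 := by exact_mod_cast hM
    have hpi : (Real.pi : ℂ) ≠ 0 := by exact_mod_cast Real.pi_ne_zero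
    simp [this, hpi, Complex.I_ne_zero]
  have h1 : ∀ t : ℝ, e (t * M) = Complex.exp ((2 * (Real.pi : ℂ) * Complex.I * (M : ℂ)) * t) := by
    intro t
    unfold e
    congr 1
    push_cast
    ring
  simp_rw [h1]
  rw [integral_exp_mul_complex hc]
  have h2 : Complex.exp ((2 * (Real.pi : ℂ) * Complex.I * (M : ℂ)) * ((1 / 2 : ℝ) : ℂ)) =
      Complex.exp ((2 * (Real.pi : ℂ) * Complex.I * (M : ℂ)) * ((-(1 / 2) : ℝ) : ℂ)) := by
    have h3 : (2 * (Real.pi : ℂ) * Complex.I * (M : ℂ)) * ((1 / 2 : ℝ) : ℂ) =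
        (2 * (Real.pi : ℂ) * Complex.I * (M : ℂ)) * ((-(1 / 2) : ℝ) : ℂ) +
          (M : ℂ) * (2 * Real.pi * Complex.I) := by
      push_cast; ring
    rw [h3, Complex.exp_add, Complex.exp_int_mul_two_pi_mul_I, mul_one]
  rw [h2, sub_self, zero_div]

theorem e_add (x y : ℝ) : e (x + y) = e x * e y := by
  unfold e
  rw [← Complex.exp_add]
  congr 1
  push_cast
  ring

theorem e_sum {ι : Type*} [DecidableEq ι] (F : Finset ι) (x : ι → ℝ) :
    e (∑ i ∈ F, x i) = ∏ i ∈ F, e (x i) := by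
  induction F using Finset.induction_on with
  | empty => simp [e]
  | insert i F hi ih => rw [Finset.sum_insert hi, Finset.prod_insert hi, e_add, ih]

theorem e_cont : Continuous e := by
  unfold e
  fun_prop

theorem t_NEAR : S_NEAR := by
  intro s
  set B : ℝ := Real.exp (Real.pi / 4) * A1 with hB
  have hB0 : 0 ≤ B := mul_nonneg (Real.exp_pos _).le A1_nonneg
  refine ⟨2 * (3 * (1 + B)), by linarith, ?_⟩
  intro k P σ θ N hP hσ hσ1 hN
  set E := Real.exp (-(Real.pi / (4 * σ ^ 2))) with hE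
  have hE0 : 0 < E := Real.exp_pos _
  have hE1 : E ≤ 1 := by
    rw [hE, Real.exp_le_one_iff]
    have : 0 ≤ Real.pi / (4 * σ ^ 2) := by positivity
    linarith
  have hP0 : (1 : ℝ) ≤ P := by exact_mod_cast hP
  set A : ℝ := 3 * (1 + B) * P with hA
  have hA0 : 0 ≤ A := by positivity
  have hcard : ((Ico P (4 * P)).card : ℝ) = 3 * P := by
    rw [Nat.card_Ico]
    have : 4 * P - P = 3 * P := by omega
    rw [this]; push_cast; ring
  let Tn : ℝ → ℝ → ℂ := fun t th => ∑ x ∈ Ico P (4 * P), rn σ t (((x : ℝ) + th) ^ k)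
  have hTn : ∀ t th, ‖Tn t th‖ ≤ 3 * P := by
    intro t th
    refine (norm_sum_le _ _).trans ?_
    refine (Finset.sum_le_sum (fun x _ => rn_norm σ t _)).trans ?_
    rw [Finset.sum_const, nsmul_eq_mul, hcard, mul_one]
  have hdiff : ∀ t th, ‖T k P σ t th - Tn t th‖ ≤ 3 * P * (E * B) := by
    intro t th
    have : T k P σ t th - Tn t th = ∑ x ∈ Ico P (4 * P),
        (rho σ t (((x : ℝ) + th) ^ k) - rn σ t (((x : ℝ) + th) ^ k)) := by
      rw [Finset.sum_sub_distrib]; rfl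
    rw [this]
    refine (norm_sum_le _ _).trans ?_
    refine (Finset.sum_le_sum (fun x _ => rho_close σ t _ hσ hσ1)).trans ?_
    rw [Finset.sum_const, nsmul_eq_mul, hcard]
  have hAE : ∀ t th, ‖T k P σ t th - Tn t th‖ ≤ A * E := by
    intro t th
    refine (hdiff t th).trans ?_
    rw [hA]
    have : 0 ≤ 3 * (P : ℝ) * E := by positivity
    nlinarith
  have hTnA : ∀ t th, ‖Tn t th‖ ≤ A := by
    intro t th
    refine (hTn t th).trans ?_
    rw [hA]
    nlinarith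
  have hTA : ∀ t th, ‖T k P σ t th‖ ≤ A := by
    intro t th
    have h1 : T k P σ t th = (T k P σ t th - Tn t th) + Tn t th := by ring
    rw [h1]
    refine (norm_add_le _ _).trans ?_
    refine (add_le_add (hdiff t th) (hTn t th)).trans ?_
    rw [hA]
    have h2 : E * B ≤ B := by nlinarith
    nlinarith
  -- the integral of the main term
  have hexp : ∀ t : ℝ, e (-(t * N)) * ∏ i, Tn t (θ i) =
      ∑ x ∈ Fintype.piFinset (fun _ : Fin s => Ico P (4 * P)),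
        (∏ i, ((Real.exp (-Real.pi * ((((x i : ℝ) + θ i) ^ k - 1 / 2 -
          (⌊((x i : ℝ) + θ i) ^ k⌋ : ℤ)) / σ) ^ 2) : ℝ) : ℂ)) *
        e (t * ((∑ i, ⌊((x i : ℝ) + θ i) ^ k⌋ - N : ℤ) : ℝ)) := by
    intro t
    have h1 : ∏ i, Tn t (θ i) = ∑ x ∈ Fintype.piFinset (fun _ : Fin s => Ico P (4 * P)),
        ∏ i, rn σ t (((x i : ℝ) + θ i) ^ k) :=
      Finset.prod_univ_sum (fun _ : Fin s => Ico P (4 * P))
        (fun i x => rn σ t (((x : ℝ) + θ i) ^ k))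
    rw [h1, Finset.mul_sum]
    apply Finset.sum_congr rfl
    intro x _
    unfold rn
    rw [Finset.prod_mul_distrib, ← e_sum]
    have h2 : e (t * ((∑ i, ⌊((x i : ℝ) + θ i) ^ k⌋ - N : ℤ) : ℝ)) =
        e (-(t * N)) * e (∑ i, t * ((⌊((x i : ℝ) + θ i) ^ k⌋ : ℤ) : ℝ)) := by
      rw [← e_add]
      congr 1
      rw [← Finset.mul_sum]
      push_cast
      ring
    rw [h2]
    ring
  have hcont : ∀ (c : ℂ) (M : ℤ), Continuous (fun t : ℝ => c * e (t * M)) := by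
    intro c M
    exact continuous_const.mul (e_cont.comp (continuous_id.mul continuous_const))
  have hint0 : ∫ t in (-(1 / 2) : ℝ)..(1 / 2), e (-(t * N)) * ∏ i, Tn t (θ i) = 0 := by
    simp_rw [hexp]
    rw [intervalIntegral.integral_finset_sum (fun x _ => (hcont _ _).intervalIntegrable _ _)]
    apply Finset.sum_eq_zero
    intro x hx
    rw [intervalIntegral.integral_const_mul, int_e _ (sub_ne_zero.mpr (hN x hx)), mul_zero]
  have hgint : IntervalIntegrable (fun t : ℝ => e (-(t * N)) * ∏ i, Tn t (θ i)) volume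
      (-(1 / 2)) (1 / 2) := by
    simp_rw [hexp]
    apply Continuous.intervalIntegrable
    exact continuous_finset_sum _ (fun x _ => hcont _ _)
  have hfin : (s : ℝ) * A ^ s * E ≤
      (2 * (3 * (1 + B)) * P) ^ s * Real.exp (-(Real.pi / (8 * σ ^ 2))) := by
    have h1 : (2 * (3 * (1 + B)) * P : ℝ) = 2 * A := by rw [hA]; ring
    rw [h1, mul_pow 2 A s]
    have h2 : (s : ℝ) ≤ 2 ^ s := by
      have := Nat.lt_two_pow_self (n := s)
      exact_mod_cast this.le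
    have h3 : E ≤ Real.exp (-(Real.pi / (8 * σ ^ 2))) := by
      rw [hE]
      apply Real.exp_le_exp.mpr
      have h4 : Real.pi / (8 * σ ^ 2) ≤ Real.pi / (4 * σ ^ 2) := by
        apply div_le_div_of_nonneg_left Real.pi_pos.le (by positivity)
        nlinarith [sq_nonneg σ]
      linarith
    have h5 : 0 ≤ A ^ s := pow_nonneg hA0 s
    exact mul_le_mul (mul_le_mul_of_nonneg_right h2 h5) h3 hE0.le (by positivity)
  refine le_trans ?_ hfin
  by_cases hf : IntervalIntegrable (fun t : ℝ => e (-(t * N)) * ∏ i, T k P σ t (θ i)) volume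
      (-(1 / 2)) (1 / 2)
  · have h1 : ∫ t in (-(1 / 2) : ℝ)..(1 / 2), e (-(t * N)) * ∏ i, T k P σ t (θ i) =
        ∫ t in (-(1 / 2) : ℝ)..(1 / 2), (e (-(t * N)) * ∏ i, T k P σ t (θ i) -
          e (-(t * N)) * ∏ i, Tn t (θ i)) := by
      rw [intervalIntegral.integral_sub hf hgint, hint0, sub_zero]
    rw [h1]
    have h2 : ∀ t ∈ Set.uIoc (-(1 / 2) : ℝ) (1 / 2), ‖e (-(t * N)) * ∏ i, T k P σ t (θ i) -
          e (-(t * N)) * ∏ i, Tn t (θ i)‖ ≤ (s : ℝ) * A ^ s * E := by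
      intro t _
      rw [← mul_sub, norm_mul, norm_e, one_mul]
      have h3 := prod_diff (Finset.univ : Finset (Fin s)) (fun i => T k P σ t (θ i))
        (fun i => Tn t (θ i)) A E hA0 hE0.le (fun i => hTA t _) (fun i => hTnA t _)
        (fun i => hAE t _)
      simpa using h3
    have h4 := intervalIntegral.norm_integral_le_of_norm_le_const h2
    refine h4.trans (le_of_eq ?_)
    norm_num
  · rw [intervalIntegral.integral_undef hf, norm_zero]
    positivity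

end Pool.Agent.W827.WT.NEAR
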